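import Pool.Agent.H33.WNa

set_option autoImplicit false

namespace Pool.Agent.Results.MP_768068_al.Neg

open Finset Pool.Agent.H33.WNa Matrix

section
variable {A : Type} [AddCommGroup A] [Module ℚ A] (μ : A → A → A)

/-- The multiplication `μ` is bilinear. -/
def Bilin : Prop := (∀ a, IsLinearMap ℚ (μ a)) ∧ ∀ b, IsLinearMap ℚ fun a => μ a b

def Assoc : Prop := ∀ a b c, μ (μ a b) c = μ a (μ b c)

def Alternative : Prop := ∀ a b, μ (μ a a) b = μ a (μ a b) ∧ μ (μ b a) a = μ b (μ a a)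

def Jordan : Prop := ∀ a b, μ a b = μ b a ∧ μ (μ (μ a a) b) a = μ (μ a a) (μ b a)

/-- Two-sided ideals of the algebra with multiplication `μ`. -/
def IsIdeal (U : Submodule ℚ A) : Prop := ∀ a, ∀ u ∈ U, μ a u ∈ U ∧ μ u a ∈ U

/-- `Pr μ S n a`: `a` is a product of `n` elements of `S`, for some arrangement of parentheses. -/
inductive Pr (S : Set A) : ℕ → A → Prop
  | one {a : A} : a ∈ S → Pr S 1 a
  | mul {m n : ℕ} {a b : A} : Pr S m a → Pr S n b → Pr S (m + n) (μ a b)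

def Nilp (S : Set A) : Prop := ∃ n, 1 ≤ n ∧ ∀ a, Pr μ S n a → a = 0

/-- The subalgebra generated by `s`. -/
def gen (s : Set A) : Submodule ℚ A := sInf {B | s ⊆ B ∧ ∀ a ∈ B, ∀ b ∈ B, μ a b ∈ B}

def LocNilp (U : Submodule ℚ A) : Prop := ∀ s : Finset A, ↑s ⊆ (U : Set A) → Nilp μ (gen μ s)

def WeaklyNoetherian : Prop :=
  ∀ c : ℕ → Submodule ℚ A, Monotone c → (∀ n, IsIdeal μ (c n)) → ∃ n, ∀ m, n ≤ m → c m = c n

/-- `L` is the largest locally nilpotent ideal. -/
def IsRadical (L : Submodule ℚ A) : Prop :=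
  IsIdeal μ L ∧ LocNilp μ L ∧ ∀ U, IsIdeal μ U → LocNilp μ U → U ≤ L

def Bad : Prop := Bilin μ ∧ WeaklyNoetherian μ ∧ ∃ L, IsRadical μ L ∧ ¬Nilp μ L

end

lemma ent {ι : Type} [Fintype ι] [DecidableEq ι] (U : Submodule ℚ (Matrix ι ι C))
    (hU : ∀ a, ∀ u ∈ U, a * u + u * a ∈ U) (m : Matrix ι ι C) :
    m ∈ U ↔ ∀ i j, scalar ι (m i j) ∈ U := by
  have h2 : ∀ u, u + u ∈ U → u ∈ U := fun u h => by
    have := U.smul_mem (1 / 2) h
    rwa [← two_smul ℚ, smul_smul, show (1 / 2 * 2 : ℚ) = 1 by norm_num, one_smul] at this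
  have h3 : ∀ a b, ∀ u ∈ U, a * u * b + b * u * a ∈ U := fun a b u hu => h2 _ <| by
    convert U.sub_mem (U.add_mem (hU a _ (hU b _ hu)) (hU b _ (hU a _ hu))) (hU (a * b + b * a) _ hu)
      using 1
    noncomm_ring
  refine ⟨fun h i j => ?_, fun h => ?_⟩
  · have e : single j i (m i j) ∈ U := h2 _ <| h2 _ <| by
      have := h3 (single j i 1) (single j i 1) m h
      rw [single_mul_mul_single] at this
      simpa using U.add_mem this this
    rw [scalar_apply, ← sum_single_eq_diagonal]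
    refine U.sum_mem fun k _ => ?_
    have := h3 (single k j 1) (single i k 1) _ e
    by_cases hk : k = j ∧ i = k
    · obtain ⟨rfl, rfl⟩ := hk
      exact e
    · rw [single_mul_mul_single, single_mul_mul_single,
        single_apply_of_ne j i _ k k (by tauto)] at this
      simpa using this
  · rw [matrix_eq_sum_single m]
    refine U.sum_mem fun i _ => U.sum_mem fun j _ => h2 _ ?_
    convert hU (single i j 1) _ (h i j) using 2 <;> ext a b <;> simp [single_apply]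

def I : ℕ → Type
  | 0 => Unit
  | n + 1 => I n × J n

instance fI : ∀ n, Fintype (I n)
  | 0 => inferInstanceAs (Fintype Unit)
  | n + 1 => let _ := fI n; inferInstanceAs (Fintype (I n × J n))

instance dI : ∀ n, DecidableEq (I n)
  | 0 => inferInstanceAs (DecidableEq Unit)
  | n + 1 => let _ := dI n; inferInstanceAs (DecidableEq (I n × J n))

instance nI : ∀ n, Nonempty (I n)
  | 0 => ⟨()⟩
  | n + 1 => ⟨((nI n).some, some)⟩

abbrev G (n : ℕ) := Matrix (I n) (I n) C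

noncomputable section

def step (n : ℕ) : G n →ₐ[ℚ] G (n + 1) :=
  AlgHom.mk' ((blockDiagonalRingHom (I n) (J n) C).comp
    (RingHom.pi fun j => (φ (σ j)).toRingHom.mapMatrix)) fun c m => by
      ext ⟨a, j⟩ ⟨b, k⟩
      change (if j = k then φ (σ j) (c • m a b) else 0) = c • if j = k then φ (σ j) (m a b) else 0
      split_ifs <;> simp

lemma step_apply {n : ℕ} (m : G n) (a b : I n) (j k : J n) :
    step n m (a, j) (b, k) = if j = k then φ (σ j) (m a b) else 0 := rfl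

def f (i j : ℕ) (h : i ≤ j) : G i →ₐ[ℚ] G j :=
  Nat.leRecOn h (fun {k} g => (step k).comp g) (AlgHom.id ℚ _)

lemma f_self (i : ℕ) (m : G i) : f i i le_rfl m = m := by simp [f, Nat.leRecOn_self]
lemma f_succ {i j : ℕ} (h : i ≤ j) (h' : i ≤ j + 1) (m : G i) :
    f i (j + 1) h' m = step j (f i j h m) := by simp [f, Nat.leRecOn_succ h]

instance : DirectedSystem G (f · · ·) where
  map_self := f_self
  map_map k j i hij hjk m := by
    induction hjk with
    | refl => exact f_self ..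
    | step h ih => rw [f_succ h, f_succ (hij.trans h), ih]

abbrev A := DirectLimit G f

def o (n : ℕ) : G n →+* A := DirectLimit.Ring.of G f n

lemma o_smul (n : ℕ) (c : ℚ) (m : G n) : o n (c • m) = c • o n m := (DirectLimit.smul_def ..).symm
lemma o_f {i j : ℕ} (h : i ≤ j) (m : G i) : o j (f i j h m) = o i m := DirectLimit.Ring.of_f ..
lemma o_step (n : ℕ) (m : G n) : o (n + 1) (step n m) = o n m := by
  rw [← o_f n.le_succ, f_succ le_rfl, f_self]

lemma o_inj (n : ℕ) : Function.Injective (o n) := DirectLimit.mk_injective f (fun i j h => by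
  induction h with
  | refl => exact fun a b h => by simpa [f_self] using h
  | step h ih =>
    refine fun a b e => ih ?_
    simp only [f_succ h] at e
    ext p q
    simpa [step_apply, σ_id, φ_id] using congrFun₂ e (p, some) (q, some)) n

def ν (t : ℚ) : A →ₗ[ℚ] A →ₗ[ℚ] A := LinearMap.mul ℚ A + t • (LinearMap.mul ℚ A).flip

def μ (t : ℚ) (a b : A) : A := ν t a b

lemma μ_apply (t : ℚ) (a b : A) : μ t a b = a * b + t • (b * a) := rfl

lemma μ_o (t : ℚ) (n : ℕ) (a b : G n) : μ t (o n a) (o n b) = o n (a * b + t • (b * a)) := by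
  simp [μ_apply, o_smul]

def JI (U : Submodule ℚ A) : Prop := ∀ a, ∀ u ∈ U, a * u + u * a ∈ U

lemma ji {t : ℚ} (ht : t = 0 ∨ t = 1) {U : Submodule ℚ A} (h : IsIdeal (μ t) U) : JI U := by
  intro a u hu
  rcases ht with rfl | rfl
  · simpa only [μ_apply, zero_smul ℚ (_ : A), add_zero] using U.add_mem (h a u hu).1 (h a u hu).2
  · simpa [μ_apply] using (h a u hu).1

variable {U : Submodule ℚ A} (hU : JI U)
include hU

lemma ento (n : ℕ) (m : G n) : o n m ∈ U ↔ ∀ i j, o n (scalar _ (m i j)) ∈ U :=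
  ent (U.comap (DirectLimit.Module.of ℚ ℕ G f n)) (fun a u hu => by
    have := hU (o n a) (o n u) hu
    rwa [← map_mul, ← map_mul, ← map_add] at this) m

def Id (n : ℕ) : Ideal C where
  carrier := {c | o n (scalar _ c) ∈ U}
  add_mem' ha hb := by simpa only [Set.mem_setOf_eq, map_add] using U.add_mem ha hb
  zero_mem' := by simp
  smul_mem' c d hd := by
    have := U.smul_mem (1 / 2) (hU (o n (scalar _ c)) _ hd)
    rwa [← map_mul, ← map_mul, ← map_mul, ← map_mul, mul_comm d c, ← two_smul ℚ, smul_smul,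
      show (1 / 2 * 2 : ℚ) = 1 by norm_num, one_smul] at this

lemma sys : Sys (Id hU) := fun n c => by
  change o n _ ∈ U ↔ ∀ j, o (n + 1) _ ∈ U
  rw [← o_step, ento hU]
  refine ⟨fun h j => ?_, fun h ⟨a, j⟩ ⟨b, k⟩ => ?_⟩
  · obtain ⟨a⟩ := nI n
    simpa [step_apply] using h (a, j) (a, j)
  · rw [step_apply, scalar_apply c, diagonal_apply]
    split_ifs
    · exact h j
    · simp
    · simp

lemma le_of {V : Submodule ℚ A} (hV : JI V)
    (h : ∀ S n, xS S ∈ Id hU n → ∀ T, S ⊆ T → ∀ n, xS T ∈ Id hV n) : U ≤ V := fun a ha => by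
  obtain ⟨n, m, rfl⟩ := DirectLimit.exists_eq_mk f a
  refine (ento hV n m).2 fun i j => ?_
  have : m i j ∈ Id hU n := (ento hU n m).1 ha i j
  obtain ⟨a, e⟩ := span_xS (m i j)
  change m i j ∈ Id hV n
  rw [e] at this ⊢
  refine sum_mem fun S hS => ?_
  obtain ⟨S0, s, k, hk⟩ := sub (sys hU) this hS
  exact Submodule.smul_of_tower_mem _ _ (h S0 k hk S s n)

omit hU

def Cp : Ideal C := Ideal.span (Set.range x)

lemma up {i j : ℕ} (h : i ≤ j) {m : G i} (hm : ∀ a b, m a b ∈ Cp) : ∀ a b, f i j h m a b ∈ Cp := by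
  induction h with
  | refl => simpa [f_self] using hm
  | step h ih =>
    rintro ⟨a, p⟩ ⟨b, q⟩
    rw [f_succ h, step_apply]
    split_ifs
    · refine (Ideal.span_le.2 ?_ : Cp ≤ Cp.comap (φ (σ p))) (ih a b)
      rintro _ ⟨i, rfl⟩
      simp only [SetLike.mem_coe, Ideal.mem_comap, φ_x]
      cases σ p i
      · exact zero_mem _
      · exact Ideal.subset_span ⟨_, rfl⟩
    · exact zero_mem _

def M (n : ℕ) (N : Ideal C) : Submodule ℚ A where
  carrier := {a | ∃ m, (∀ i j, m i j ∈ N) ∧ o n m = a}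
  add_mem' := by
    rintro _ _ ⟨a, ha, rfl⟩ ⟨b, hb, rfl⟩
    exact ⟨a + b, fun i j => add_mem (ha i j) (hb i j), map_add ..⟩
  zero_mem' := ⟨0, fun _ _ => zero_mem _, map_zero _⟩
  smul_mem' c := by
    rintro _ ⟨a, ha, rfl⟩
    exact ⟨c • a, fun i j => Submodule.smul_of_tower_mem _ c (ha i j), o_smul ..⟩

lemma M_mul (t : ℚ) {n : ℕ} {N N' : Ideal C} {a b : A} (ha : a ∈ M n N) (hb : b ∈ M n N') :
    μ t a b ∈ M n (N * N') := by
  obtain ⟨a, ha, rfl⟩ := ha
  obtain ⟨b, hb, rfl⟩ := hb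
  have h1 : o n a * o n b ∈ M n (N * N') :=
    ⟨a * b, fun i j => sum_mem fun k _ => Ideal.mul_mem_mul (ha _ _) (hb _ _), map_mul ..⟩
  have h2 : o n b * o n a ∈ M n (N * N') :=
    ⟨b * a, fun i j => sum_mem fun k _ => Ideal.mul_mem_mul_rev (ha _ _) (hb _ _), map_mul ..⟩
  exact add_mem h1 (Submodule.smul_mem _ t h2)

lemma M_le {n : ℕ} {N N' : Ideal C} (h : N ≤ N') : M n N ≤ M n N' :=
  fun _ ⟨m, hm, e⟩ => ⟨m, fun i j => h (hm i j), e⟩

lemma M_mono : Monotone (M · Cp) := fun i j h _ ⟨m, hm, e⟩ => ⟨_, up h hm, (o_f h m).trans e⟩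

def L : Submodule ℚ A := ⨆ n, M n Cp

lemma mem_L {a : A} : a ∈ L ↔ ∃ n, a ∈ M n Cp :=
  Submodule.mem_iSup_of_directed _ M_mono.directed_le

lemma L_ideal (t : ℚ) : IsIdeal (μ t) L := fun a u hu => by
  obtain ⟨n, hn⟩ := mem_L.1 hu
  obtain ⟨k, m, rfl⟩ := DirectLimit.exists_eq_mk f a
  have h1 := M_mono (le_max_left n k) hn
  have h2 : o k m ∈ M (max n k) ⊤ := ⟨_, fun _ _ => trivial, o_f (le_max_right n k) m⟩
  exact ⟨mem_L.2 ⟨_, M_le Ideal.mul_le_right (M_mul t h2 h1)⟩,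
    mem_L.2 ⟨_, M_le Ideal.mul_le_left (M_mul t h1 h2)⟩⟩

lemma pa {R : Type} [CommRing R] (N : Ideal R) (m n : ℕ) : N ^ (m + n) = N ^ m * N ^ n := pow_add ..

lemma L_nil (t : ℚ) : LocNilp (μ t) L := fun s hs => by
  classical
  obtain ⟨n, hn⟩ : ∃ n, ∀ a ∈ s, a ∈ M n Cp := by
    choose! g hg using fun a (ha : a ∈ s) => mem_L.1 (hs ha)
    exact ⟨s.sup g, fun a ha => M_mono (le_sup ha) (hg a ha)⟩
  choose! g hg e using hn
  let E : Finset C := (s ×ˢ (univ : Finset (I n × I n))).image fun p => g p.1 p.2.1 p.2.2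
  obtain ⟨k, hk⟩ := (Ideal.FG.isNilpotent_iff_le_nilradical (I := Ideal.span (E : Set C))
    ⟨E, rfl⟩).2 (Ideal.span_le.2 fun c hc => by
      obtain ⟨p, hp, rfl⟩ := mem_image.1 hc
      refine (Ideal.span_le.2 ?_ : Cp ≤ nilradical C) (hg _ (mem_product.1 hp).1 _ _)
      rintro _ ⟨i, rfl⟩
      exact mem_nilradical.2 ⟨2, by rw [sq, xx]⟩)
  have h1 : gen (μ t) s ≤ M n (Ideal.span E) := sInf_le ⟨fun a ha => ⟨g a, fun i j =>
    Ideal.subset_span (mem_image.2 ⟨(a, i, j), by simpa using ha, rfl⟩), e a ha⟩,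
    fun a ha b hb => M_le Ideal.mul_le_left (M_mul t ha hb)⟩
  have h2 : ∀ l a, Pr (μ t) (gen (μ t) s) l a → a ∈ M n (Ideal.span E ^ l) := fun l a h => by
    induction h with
    | one h => simpa using h1 h
    | mul _ _ ha hb => exact M_le (pa _ _ _).ge (M_mul t ha hb)
  refine ⟨k + 1, by omega, fun a ha => ?_⟩
  obtain ⟨m, hm, rfl⟩ := h2 _ a ha
  rw [show m = 0 from Matrix.ext fun i j => (Ideal.pow_le_pow_right k.le_succ).trans hk.le (hm i j),
    map_zero]

lemma nn {t : ℚ} (ht : t = 0 ∨ t = 1) {S : Set A} (c : ℕ → C) (hc : ∀ i, o 0 (scalar _ (c i)) ∈ S)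
    (h : ∀ n, ∏ i ∈ range n, c i ≠ 0) : ¬Nilp (μ t) S := by
  have : ∀ n, Pr (μ t) S (n + 1) ((1 + t) ^ n • o 0 (scalar _ (∏ i ∈ range (n + 1), c i))) := by
    intro n
    induction n with
    | zero => simpa using Pr.one (hc 0)
    | succ n ih =>
      convert ih.mul (.one (hc (n + 1))) using 1
      rw [μ, map_smul, LinearMap.smul_apply, ← μ, μ_o, ← map_mul, ← map_mul, mul_comm (c _), ← prod_range_succ,
        map_add, o_smul, pow_succ, mul_smul, add_smul, one_smul]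
  rintro ⟨n, hn, e⟩
  obtain ⟨n, rfl⟩ := Nat.exists_eq_add_of_le' hn
  have := (smul_eq_zero.1 (e _ (this n))).resolve_left (by rcases ht with rfl | rfl <;> positivity)
  exact h _ (scalar_inj.1 ((o_inj 0 (this.trans (map_zero _).symm)).trans (map_zero _).symm))

lemma bad {t : ℚ} (ht : t = 0 ∨ t = 1) : Bad (μ t) := by
  refine ⟨⟨fun a => (ν t a).isLinear, fun b => ((ν t).flip b).isLinear⟩, fun c hc hi => ?_, L, ⟨L_ideal t, L_nil t, fun U hU hn => ?_⟩, nn ht x (fun i => ?_) ?_⟩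
  · classical
    by_cases h : ∃ d n S k, #S = d ∧ xS S ∈ Id (ji ht (hi n)) k
    · obtain ⟨n, S, k, e, hS⟩ := Nat.find_spec h
      refine ⟨n, fun m hm => le_antisymm (le_of (ji ht (hi m)) (ji ht (hi n))
        fun T l hT T' s l' => all (sys _) hS _ ?_ _) (hc hm)⟩
      exact (e.le.trans (Nat.find_min' h ⟨m, T, l, rfl, hT⟩)).trans (card_le_card s)
    · exact ⟨0, fun m hm => le_antisymm (le_of (ji ht (hi m)) (ji ht (hi 0))
        fun T l hT => (h ⟨_, m, T, l, rfl, hT⟩).elim) (hc hm)⟩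
  · refine le_of (ji ht hU) (ji ht (L_ideal t)) fun S n hS T s k => ?_
    rcases S.eq_empty_or_nonempty with rfl | ⟨i, hi⟩
    · refine (nn ht (fun _ => 1) (fun _ => ?_) (fun _ => ?_) (hn {1} ?_)).elim
      · simpa [gen] using fun p h _ => h
      · simpa [xS] using xS_ne ∅
      · simpa [Id, xS] using hS
    · refine mem_L.2 ⟨k, _, fun a b => ?_, rfl⟩
      rw [scalar_apply, diagonal_apply]
      split_ifs
      · exact Ideal.prod_mem _ (s hi) (Ideal.subset_span ⟨i, rfl⟩)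
      · exact zero_mem _
  · exact mem_L.2 ⟨0, _, fun _ _ => Ideal.subset_span ⟨i, rfl⟩, rfl⟩
  · exact fun n => xS_ne _

end

theorem result :
    (∃ (A : Type) (_ : AddCommGroup A) (_ : Module ℚ A) (μ : A → A → A), Assoc μ ∧ Bad μ) ∧
    (∃ (A : Type) (_ : AddCommGroup A) (_ : Module ℚ A) (μ : A → A → A), Alternative μ ∧ Bad μ) ∧
    (∃ (A : Type) (_ : AddCommGroup A) (_ : Module ℚ A) (μ : A → A → A), Jordan μ ∧ Bad μ) := by
  have e : ∀ a b, μ 0 a b = a * b := fun a b => by rw [μ_apply, zero_smul ℚ (b * a), add_zero]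
  refine ⟨⟨A, _, _, μ 0, fun a b c => by simp only [e, mul_assoc], bad (.inl rfl)⟩,
    ⟨A, _, _, μ 0, fun a b => by simp only [e, mul_assoc, and_self], bad (.inl rfl)⟩,
    A, _, _, μ 1, fun a b => ?_, bad (.inr rfl)⟩
  simp only [μ_apply, one_smul]
  exact ⟨add_comm _ _, by noncomm_ring⟩

end Pool.Agent.Results.MP_768068_al.Neg
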